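import Pool.Agent.Y405.TL.Cm

/-! Project TL, job A1: `GR3` is symmetric in the variables of `A`
(adapted from `H981R2.TP.A1` and `H492C.G1`). -/

set_option linter.unusedVariables false

namespace Pool.Agent.Y405.TL

open Pool.Agent.H988R2.Perc hiding X
open Pool.Agent.H492C
open Pool.Agent.Y996.TL
open Finset Polynomial

theorem swapA3 (u v B : List ℂ) (x y : ℂ) (hA : Odd (u.length + v.length)) (hB : Odd B.length)
    (hx : x ≠ 0) (hy : y ≠ 0)
    (hxy : q * x - q^2 * y ≠ 0) (hyx : q * y - q^2 * x ≠ 0) :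
    GR3 (u ++ y :: x :: v) B = GR3 (u ++ x :: y :: v) B := by
  obtain ⟨n, hn⟩ := hA
  obtain ⟨m, hm⟩ := hB
  have hev : Even (u.length + (v ++ 1 :: 1 :: 1 :: (B ++ [0])).length) := by
    simp only [List.length_append, List.length_cons, List.length_nil]
    exact ⟨n + m + 3, by omega⟩
  have e1 := Psi_exch u (v ++ 1 :: 1 :: 1 :: (B ++ [0])) x y hev
  have e2 := g1_inv_exch u v x y ⟨n, hn⟩ hx hy
  have hl : ∀ a b : ℂ, (u ++ a :: b :: v).length = u.length + v.length + 2 := by
    intro a b; simp only [List.length_append, List.length_cons]; ring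
  have hps : ∀ a b : ℂ, Psi ((u ++ a :: b :: v) ++ 1 :: 1 :: 1 :: (B ++ [0])) =
      Psi (u ++ a :: b :: (v ++ 1 :: 1 :: 1 :: (B ++ [0]))) := by
    intro a b; congr 1; simp
  unfold GR3
  rw [hl, hl, hps, hps]
  refine pr3_core _ _ u.length ⟨n + 1, by omega⟩ (by omega) (by omega) (by omega) x y _ _ _ _ e1
    ?_ hxy hyx
  rw [← comb2_smul_left, e2, comb2_add_left, comb2_smul_left, comb2_smul_left,
    comb2_act_left (by omega)]

theorem polyA3 (u v B : List ℂ) (h : Even (u.length + v.length)) (hB : Odd B.length) :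
    ∃ P : ℂ[X], ∀ z, z ≠ 0 → P.eval z = z^(u.length + v.length) * GR3 (u ++ z :: v) B := by
  have hpar : Odd (u.length + (v ++ 1 :: 1 :: 1 :: (B ++ [0])).length) := by
    obtain ⟨m, hm⟩ := h
    obtain ⟨n, hn⟩ := hB
    simp only [List.length_append, List.length_cons, List.length_nil]
    exact ⟨m + n + 2, by omega⟩
  obtain ⟨P, hP1, hP2⟩ := PolyV_pr3 (PolyV.psi u (v ++ 1 :: 1 :: 1 :: (B ++ [0])) hpar)
    (PolyV.up1 u v h) (PolyV.const (up1 B)) (u.length + v.length + 1)
    (u.length + v.length + 1 + 3 + B.length) ((u.length + v.length + 1 + 3)/2)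
  refine ⟨P, fun z hz => ?_⟩
  rw [hP2 z hz]
  unfold GR3
  have hl : (u ++ z :: v).length = u.length + v.length + 1 := by
    simp only [List.length_append, List.length_cons]; ring
  have hps : Psi ((u ++ z :: v) ++ 1 :: 1 :: 1 :: (B ++ [0])) =
      Psi (u ++ z :: (v ++ 1 :: 1 :: 1 :: (B ++ [0]))) := by
    congr 1; simp
  rw [hl, hps, zero_add, add_zero]

theorem a1 : S_A1 := by
  intro u v B x y hA hB hx hy h0
  obtain ⟨P, hP⟩ := polyA3 u (x :: v) B (by
    rw [List.length_cons, ← add_assoc]; exact hA.add_one) hB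
  obtain ⟨Q, hQ⟩ := polyA3 (u ++ [x]) v B (by
    rw [List.length_append, List.length_singleton, add_right_comm]; exact hA.add_one) hB
  have hP' : ∀ z, z ≠ 0 → P.eval z = z^(u.length + v.length + 1) * GR3 (u ++ z :: x :: v) B := by
    intro z hz
    rw [hP z hz]
    congr 1
  have hQ' : ∀ z, z ≠ 0 → Q.eval z = z^(u.length + v.length + 1) * GR3 (u ++ x :: z :: v) B := by
    intro z hz
    rw [hQ z hz]
    congr 1
    · congr 1
      simp only [List.length_append, List.length_cons, List.length_nil]; ring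
    · congr 1; simp
  have hPQ : P = Q := by
    refine g1_ext x P Q (fun z hz h1 h2 => ?_)
    rw [hP' z hz, hQ' z hz, swapA3 u v B x z hA hB hx hz h1 h2]
  have h3 := hP' y hy
  rw [hPQ, hQ' y hy] at h3
  exact (mul_left_cancel₀ (pow_ne_zero _ hy) h3).symm

end Pool.Agent.Y405.TL
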