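import Pool.Agent.Y996.TL.Stm
import Pool.Agent.H492C.G1

/-! Project TL, common lemmas for jobs A1, A2: commutation of the generators, the functional
`pr3` under an exchange, polynomiality of mapped vectors. -/

set_option linter.unusedVariables false

namespace Pool.Agent.Y405.TL

open Pool.Agent.H988R2.Perc hiding X
open Pool.Agent.H492C
open Pool.Agent.H492C.G1w
open Pool.Agent.Y996.TL
open Finset Polynomial

theorem act_even {i : ℕ} (hi : Even i) (R : St) (a b : ℕ) :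
    (St.act i R).rel a b ↔ a = b ∨ (a ≠ i + 1 ∧ b ≠ i + 1 ∧ R.rel a b) := by
  have k1 : i % 2 = 0 := Nat.even_iff.1 hi
  rw [St.act_rel]
  constructor
  · rintro (h | ⟨h1, h2, h3, h4, h5 | ⟨h5, h6⟩ | ⟨h5, h6⟩⟩)
    · exact Or.inl h
    · exact Or.inr ⟨h3, h4, h5⟩
    · rcases R.odd _ _ h5 with h | ⟨h, h'⟩ <;> omega
    · rcases R.odd _ _ h5 with h | ⟨h, h'⟩ <;> omega
  · rintro (h | ⟨h3, h4, h5⟩)
    · exact Or.inl h
    · rcases R.odd _ _ h5 with h | ⟨h, h'⟩
      · exact Or.inl h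
      · exact Or.inr ⟨h, h', h3, h4, Or.inl h5⟩

theorem act_odd {i : ℕ} (hi : Odd i) (R : St) (a b : ℕ) :
    (St.act i R).rel a b ↔
      R.rel a b ∨ (R.rel a i ∧ R.rel (i+2) b) ∨ (R.rel a (i+2) ∧ R.rel i b) := by
  have k1 : i % 2 = 1 := Nat.odd_iff.1 hi
  obtain ⟨hr, hs, ht⟩ := R.eqv
  rw [St.act_rel]
  have par : ∀ x y, R.rel x y → x % 2 = 1 → y % 2 = 1 := by
    intro x y h hx
    rcases R.odd _ _ h with h | ⟨h, h'⟩
    · exact h ▸ hx
    · exact h'
  constructor
  · rintro (h | ⟨h1, h2, h3, h4, h5⟩)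
    · exact Or.inl (h ▸ hr a)
    · exact h5
  · rintro (h | ⟨h5, h6⟩ | ⟨h5, h6⟩)
    · rcases R.odd _ _ h with h' | ⟨h1, h2⟩
      · exact Or.inl h'
      · exact Or.inr ⟨h1, h2, by omega, by omega, Or.inl h⟩
    · have h1 : a % 2 = 1 := par _ _ (hs h5) k1
      have h2 : b % 2 = 1 := par _ _ h6 (by omega)
      exact Or.inr ⟨h1, h2, by omega, by omega, Or.inr (Or.inl ⟨h5, h6⟩)⟩
    · have h1 : a % 2 = 1 := par _ _ (hs h5) (by omega)
      have h2 : b % 2 = 1 := par _ _ h6 k1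
      exact Or.inr ⟨h1, h2, by omega, by omega, Or.inr (Or.inr ⟨h5, h6⟩)⟩

theorem le_act {i : ℕ} (hi : Odd i) {S : St} {a b : ℕ} (h : S.rel a b) :
    (St.act i S).rel a b := (act_odd hi S a b).2 (Or.inl h)

theorem act_join {i : ℕ} (hi : Odd i) (S : St) : (St.act i S).rel i (i+2) :=
  (act_odd hi S _ _).2 (Or.inr (Or.inl ⟨S.eqv.refl _, S.eqv.refl _⟩))

theorem act_le {i : ℕ} (hi : Odd i) {S T : St} (h : ∀ a b, S.rel a b → T.rel a b)
    (h' : T.rel i (i+2)) (a b : ℕ) (k : (St.act i S).rel a b) : T.rel a b := by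
  obtain ⟨hr, hs, ht⟩ := T.eqv
  rcases (act_odd hi S a b).1 k with k | ⟨k1, k2⟩ | ⟨k1, k2⟩
  · exact h _ _ k
  · exact ht (h _ _ k1) (ht h' (h _ _ k2))
  · exact ht (h _ _ k1) (ht (hs h') (h _ _ k2))

/-- distant generators commute -/
theorem act_comm_eo {i j : ℕ} (hi : Even i) (hj : Odd j) (h : j ≠ i + 1) (h' : j + 2 ≠ i + 1)
    (R : St) : St.act i (St.act j R) = St.act j (St.act i R) := by
  apply St.ext'
  intro a b
  obtain ⟨hr, hs, ht⟩ := R.eqv
  rw [act_even hi, act_odd hj, act_odd hj, act_even hi, act_even hi, act_even hi, act_even hi,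
    act_even hi]
  have r1 := hr j
  have r2 := hr (j+2)
  constructor
  · rintro (k | ⟨k1, k2, k3 | ⟨k3, k4⟩ | ⟨k3, k4⟩⟩)
    · exact Or.inl (Or.inl k)
    · exact Or.inl (Or.inr ⟨k1, k2, k3⟩)
    · exact Or.inr (Or.inl ⟨Or.inr ⟨k1, h, k3⟩, Or.inr ⟨h', k2, k4⟩⟩)
    · exact Or.inr (Or.inr ⟨Or.inr ⟨k1, h', k3⟩, Or.inr ⟨h, k2, k4⟩⟩)
  · rintro ((k | ⟨k1, k2, k3⟩) | ⟨k1, k2⟩ | ⟨k1, k2⟩)
    · exact Or.inl k
    · exact Or.inr ⟨k1, k2, Or.inl k3⟩
    · refine Or.inr ⟨?_, ?_, Or.inr (Or.inl ⟨?_, ?_⟩)⟩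
      · rcases k1 with k1 | k1
        · rw [k1]; exact h
        · exact k1.1
      · rcases k2 with k2 | k2
        · rw [← k2]; exact h'
        · exact k2.2.1
      · rcases k1 with k1 | k1
        · rw [k1]; exact r1
        · exact k1.2.2
      · rcases k2 with k2 | k2
        · rw [← k2]; exact r2
        · exact k2.2.2
    · refine Or.inr ⟨?_, ?_, Or.inr (Or.inr ⟨?_, ?_⟩)⟩
      · rcases k1 with k1 | k1
        · rw [k1]; exact h'
        · exact k1.1
      · rcases k2 with k2 | k2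
        · rw [← k2]; exact h
        · exact k2.2.1
      · rcases k1 with k1 | k1
        · rw [k1]; exact r2
        · exact k1.2.2
      · rcases k2 with k2 | k2
        · rw [← k2]; exact r1
        · exact k2.2.2

theorem act_comm_oo {i j : ℕ} (hi : Odd i) (hj : Odd j) (R : St) :
    St.act i (St.act j R) = St.act j (St.act i R) := by
  apply St.ext'
  intro a b
  constructor
  · refine act_le hi (fun a b k => ?_) (le_act hj (act_join hi R)) a b
    exact act_le hj (fun a b k => le_act hj (le_act hi k)) (act_join hj _) a b k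
  · refine act_le hj (fun a b k => ?_) (le_act hi (act_join hj R)) a b
    exact act_le hi (fun a b k => le_act hi (le_act hj k)) (act_join hi _) a b k

/-- `act j` with `j` odd commutes with distant generators -/
theorem act_comm {i j : ℕ} (hj : Odd j) (h : i + 2 ≤ j ∨ j + 2 ≤ i) (R : St) :
    St.act i (St.act j R) = St.act j (St.act i R) := by
  rcases Nat.even_or_odd i with hi | hi
  · exact act_comm_eo hi hj (by omega) (by omega) R
  · exact act_comm_oo hi hj R

theorem map_act_comm {i j : ℕ} (hj : Odd j) (h : i + 2 ≤ j ∨ j + 2 ≤ i) (f : St →₀ ℂ) :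
    Finsupp.mapDomain (St.act i) (Finsupp.mapDomain (St.act j) f) =
      Finsupp.mapDomain (St.act j) (Finsupp.mapDomain (St.act i) f) := by
  rw [← Finsupp.mapDomain_comp, ← Finsupp.mapDomain_comp]
  congr 1
  funext R
  exact act_comm hj h R

theorem mapDomain_smul' (φ : St → St) (c : ℂ) (f : St →₀ ℂ) :
    Finsupp.mapDomain φ (c • f) = c • Finsupp.mapDomain φ f := by
  exact Finsupp.mapDomain_smul c f

/-- `pr3` under an exchange -/
theorem pr3_core (p r i : ℕ) (hpo : Odd p) (hi : i + 2 ≤ p ∨ p + 2 ≤ i) (hp : p ≠ i+1)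
    (hr : r ≠ i+1) (x y : ℂ)
    (P P' : St →₀ ℂ) (g g' : St →₀ ℂ)
    (hP : (q * x - q^2 * y) • P' = (q * y - q^2 * x) • P +
      (y - x) • Finsupp.mapDomain (St.act i) P)
    (hg : (q * y - q^2 * x) • g' = (q * x - q^2 * y) • g +
      (x - y) • Finsupp.mapDomain (St.act i) g)
    (hxy : q * x - q^2 * y ≠ 0) (hyx : q * y - q^2 * x ≠ 0) :
    pr3 p r P' g' = pr3 p r P g := by
  unfold pr3
  rw [g1_core p r i hp hr x y P P' g g' hP hg hxy hyx]
  rw [g1_core p r i hp hr x y (Finsupp.mapDomain (St.act p) P) (Finsupp.mapDomain (St.act p) P')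
    g g' ?_ hg hxy hyx]
  rw [map_act_comm hpo hi, ← mapDomain_smul', hP, Finsupp.mapDomain_add, mapDomain_smul',
    mapDomain_smul']

/-- polynomial vectors are preserved by maps of the states -/
theorem PolyV_map {a d : ℕ} {f : ℂ → (St →₀ ℂ)} (hf : PolyV a d f) (φ : St → St) :
    PolyV a d (fun z => Finsupp.mapDomain φ (f z)) := by
  classical
  obtain ⟨⟨S, hS⟩, hf2⟩ := hf
  choose P hP1 hP2 using hf2
  refine ⟨⟨S.image φ, fun z => ?_⟩, fun R => ?_⟩
  · exact (Finsupp.mapDomain_support (f := φ)).trans (Finset.image_subset_image (hS z))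
  · refine ⟨∑ R' ∈ S, (if φ R' = R then P R' else 0), ?_, ?_⟩
    · refine Polynomial.natDegree_sum_le_of_forall_le _ _ (fun R' _ => ?_)
      split_ifs
      · exact hP1 R'
      · simp
    · intro z hz
      have e : Finsupp.mapDomain φ (f z) R = ∑ R' ∈ S, (if φ R' = R then f z R' else 0) := by
        unfold Finsupp.mapDomain
        rw [Finsupp.sum_of_support_subset (f z) (hS z) _ (by intro i _; simp),
          Finsupp.finsetSum_apply]
        refine Finset.sum_congr rfl (fun R' _ => ?_)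
        rw [Finsupp.single_apply]
      rw [e, Polynomial.eval_finsetSum, Finset.mul_sum]
      refine Finset.sum_congr rfl (fun R' _ => ?_)
      split_ifs
      · rw [hP2 R' z hz]
      · simp

theorem PolyV_pr3 {a b c d e e' : ℕ} {f g h : ℂ → (St →₀ ℂ)} (hf : PolyV a d f)
    (hg : PolyV b e g) (hh : PolyV c e' h) (p r k : ℕ) :
    ∃ P : ℂ[X], P.natDegree ≤ d + e + e' ∧
      ∀ z, z ≠ 0 → P.eval z = z^(a + b + c) * pr3 p r (f z) (comb2 k (g z) (h z)) := by
  obtain ⟨P, hP1, hP2⟩ := PolyV.pair (PolyV_map hf (St.act p)) hg hh p r k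
  obtain ⟨Q, hQ1, hQ2⟩ := PolyV.pair hf hg hh p r k
  refine ⟨P - Q, (Polynomial.natDegree_sub_le _ _).trans (max_le hP1 hQ1), fun z hz => ?_⟩
  rw [Polynomial.eval_sub, hP2 z hz, hQ2 z hz]
  unfold pr3
  ring

end Pool.Agent.Y405.TL
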