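import Pool.Agent.Y996.TL.Stm
import Pool.Agent.H988R2.Perc.T14

/-! Project TL, job R1: symmetry and inversion of the closed formula (adapted from `H981R2.TP.R1`). -/

namespace Pool.Agent.Y405.TL

open Pool.Agent.H988R2.Perc hiding X
open Pool.Agent.Y996.TL

theorem RH3_permA {A A' B : List ℂ} (hA : Odd A.length) (hB : Odd B.length) (h : A.Perm A') :
    RH3 A B = RH3 A' B := by
  have hl : A.length = A'.length := h.length_eq
  have h1 : Z (A ++ [1]) = Z (A' ++ [1]) := by
    apply Z_perm
    · simp only [List.length_append, List.length_cons, List.length_nil]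
      exact hA.add_odd (by decide)
    · exact h.append_right _
  have h2 : Z (A ++ 1 :: 1 :: B) = Z (A' ++ 1 :: 1 :: B) := by
    apply Z_perm
    · simp only [List.length_append, List.length_cons]
      exact hA.add_odd hB.add_one.add_one
    · exact h.append_right _
  unfold RH3
  rw [h1, h2, hl, h.prod_eq]

theorem RH3_permB {A B B' : List ℂ} (hA : Odd A.length) (hB : Odd B.length) (h : B.Perm B') :
    RH3 A B = RH3 A B' := by
  have hl : B.length = B'.length := h.length_eq
  have h1 : Z (B ++ [1]) = Z (B' ++ [1]) := by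
    apply Z_perm
    · simp only [List.length_append, List.length_cons, List.length_nil]
      exact hB.add_odd (by decide)
    · exact h.append_right _
  have h2 : Z (A ++ 1 :: 1 :: B) = Z (A ++ 1 :: 1 :: B') := by
    apply Z_perm
    · simp only [List.length_append, List.length_cons]
      exact hA.add_odd hB.add_one.add_one
    · exact List.Perm.append_left _ ((h.cons _).cons _)
  unfold RH3
  rw [h1, h2, hl, h.prod_eq]

theorem RH3_invA (A B : List ℂ) (x : ℂ) (hA : Even A.length) (hB : Odd B.length) (hx : x ≠ 0) :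
    RH3 (x :: A) B = x^(B.length + 3) * RH3 (x⁻¹ :: A) B := by
  have h1 : Z (x :: A ++ [1]) = x^(A.length) * Z (x⁻¹ :: A ++ [1]) := by
    have := Z_inv x (A ++ [1]) hx (by
      simp only [List.length_append, List.length_cons, List.length_nil]
      exact hA.add_odd (by decide))
    simpa [List.length_append] using this
  have h2 : Z (x :: A ++ 1 :: 1 :: B) = x^(A.length + B.length + 1) *
      Z (x⁻¹ :: A ++ 1 :: 1 :: B) := by
    have := Z_inv x (A ++ 1 :: 1 :: B) hx (by
      simp only [List.length_append, List.length_cons]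
      exact hA.add_odd hB.add_one.add_one)
    simpa [List.length_append, ← add_assoc] using this
  unfold RH3
  rw [h1, h2]
  simp only [List.length_cons, List.prod_cons, Nat.cast_add, Nat.cast_one]
  rw [mul_zpow, mul_zpow, inv_zpow]
  set a : ℤ := (A.length : ℤ) with ha
  have e1 : x ^ (A.length) = x ^ a := by
    rw [ha]; norm_cast
  have e2 : x ^ (A.length + B.length + 1) = x ^ (a + (B.length : ℤ) + 1) := by
    rw [ha]; norm_cast
  have e3 : x ^ (B.length + 3) = x ^ ((B.length : ℤ) + 3) := by
    norm_cast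
  have key : x ^ (2 - (a + 1)) * x ^ a * x ^ (a + (B.length : ℤ) + 1) =
      x ^ ((B.length : ℤ) + 3) * (x ^ (2 - (a + 1)))⁻¹ := by
    rw [← zpow_neg, ← zpow_add₀ hx, ← zpow_add₀ hx, ← zpow_add₀ hx]
    congr 1; ring
  rw [e1, e2, e3]
  linear_combination (9 * q ^ (A.length + 1 + B.length + 2) * A.prod ^ (2 - (a + 1)) *
    B.prod ^ (2 - (B.length : ℤ)) *
    Z (x⁻¹ :: A ++ [1]) * Z (B ++ [1]) * Z (x⁻¹ :: A ++ 1 :: 1 :: B)) * key

theorem RH3_invB (A B : List ℂ) (x : ℂ) (hA : Odd A.length) (hB : Even B.length) (hx : x ≠ 0) :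
    RH3 A (B ++ [x]) = x^(A.length + 3) * RH3 A (B ++ [x⁻¹]) := by
  have hp : ∀ y : ℂ, RH3 A (B ++ [y]) = RH3 A (y :: B) := by
    intro y
    apply RH3_permB hA
    · simp only [List.length_append, List.length_cons, List.length_nil]
      exact hB.add_one
    · exact List.perm_append_singleton y B
  rw [hp, hp]
  have h1 : Z (x :: B ++ [1]) = x^(B.length) * Z (x⁻¹ :: B ++ [1]) := by
    have := Z_inv x (B ++ [1]) hx (by
      simp only [List.length_append, List.length_cons, List.length_nil]
      exact hB.add_one)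
    simpa [List.length_append] using this
  have hq : ∀ y : ℂ, Z (A ++ 1 :: 1 :: y :: B) = Z (y :: (A ++ 1 :: 1 :: B)) := by
    intro y
    apply Z_perm
    · simp only [List.length_append, List.length_cons]
      exact hA.add_odd hB.add_one.add_one.add_one
    · have e : (A ++ 1 :: 1 :: y :: B) = (A ++ [1, 1]) ++ y :: B := by simp
      have e' : (y :: (A ++ 1 :: 1 :: B)) = y :: ((A ++ [1, 1]) ++ B) := by simp
      rw [e, e']
      exact List.perm_middle
  have h2 : Z (A ++ 1 :: 1 :: x :: B) = x^(A.length + B.length + 1) *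
      Z (A ++ 1 :: 1 :: x⁻¹ :: B) := by
    rw [hq, hq]
    have := Z_inv x (A ++ 1 :: 1 :: B) hx (by
      simp only [List.length_append, List.length_cons]
      exact hA.add_even hB.add_one.add_one)
    simpa [List.length_append, ← add_assoc] using this
  unfold RH3
  rw [h1, h2]
  simp only [List.length_cons, List.prod_cons, Nat.cast_add, Nat.cast_one]
  rw [mul_zpow, mul_zpow, inv_zpow]
  set b : ℤ := (B.length : ℤ) with hb
  have e1 : x ^ (B.length) = x ^ b := by
    rw [hb]; norm_cast
  have e2 : x ^ (A.length + B.length + 1) = x ^ ((A.length : ℤ) + b + 1) := by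
    rw [hb]; norm_cast
  have e3 : x ^ (A.length + 3) = x ^ ((A.length : ℤ) + 3) := by
    norm_cast
  have key : x ^ (2 - (b + 1)) * x ^ b * x ^ ((A.length : ℤ) + b + 1) =
      x ^ ((A.length : ℤ) + 3) * (x ^ (2 - (b + 1)))⁻¹ := by
    rw [← zpow_neg, ← zpow_add₀ hx, ← zpow_add₀ hx, ← zpow_add₀ hx]
    congr 1; ring
  rw [e1, e2, e3]
  linear_combination (9 * q ^ (A.length + (B.length + 1) + 2) * A.prod ^ (2 - (A.length : ℤ)) *
    B.prod ^ (2 - (b + 1)) *
    Z (A ++ [1]) * Z (x⁻¹ :: B ++ [1]) * Z (A ++ 1 :: 1 :: x⁻¹ :: B)) * key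

/-- S_R1 : symmetry and inversion of the closed formula. -/
theorem r1 : S_R1 := by
  refine ⟨?_, ?_, ?_, ?_⟩
  · intro u v B x y hA hB _ _ _
    apply RH3_permA _ hB
    · exact List.Perm.append_left _ (List.Perm.swap _ _ _)
    · simp only [List.length_append, List.length_cons]
      rw [← add_assoc, ← add_assoc, Nat.odd_add_one, Nat.odd_add_one, not_not]
      exact hA
  · intro A u v x y hA hB _ _ _
    apply RH3_permB hA
    · simp only [List.length_append, List.length_cons]
      rw [← add_assoc, ← add_assoc, Nat.odd_add_one, Nat.odd_add_one, not_not]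
      exact hB
    · exact List.Perm.append_left _ (List.Perm.swap _ _ _)
  · intro A B x hA hB hx hz
    exact RH3_invA A B x hA hB hx
  · intro A B x hA hB hx _
    exact RH3_invB A B x hA hB hx

end Pool.Agent.Y405.TL
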