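import Pool.Agent.Y996.TL.Stm
import Pool.Agent.H981R2.TP.R2

/-! Project TL, job R2: recursions of the closed formula (adapted from `H981R2.TP.R2`). -/

namespace Pool.Agent.Y405.TL

open Pool.Agent.H988R2.Perc hiding X
open Pool.Agent.Y996.TL
open Pool.Agent.H981R2.TP.R2aux

theorem e0 (x : ℂ) (hx : x ≠ 0) : fac x [0] * fac (q^2 * x)⁻¹ [0] = q^2 := by
  simp only [fac_cons, fac_nil]
  rw [inv_q2x]
  have hxx : x * x⁻¹ = 1 := mul_inv_cancel₀ hx
  linear_combination (q^5) * hxx + (q^2) * q_cube

theorem hf0 (x : ℂ) (hx : x ≠ 0) : fac x [0] ≠ 0 := by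
  simp only [fac_cons, fac_nil]
  have := q_ne_zero
  simp [hx, this]

theorem r2 : S_R2 := by
  constructor
  · intro A B x hA hB hx h0
    have hA0 : ∀ z ∈ A, z ≠ 0 := fun z hz => h0 z (by simp [hz])
    have hP := prod_ne A hA0
    have hz1 : Z (x :: (q^2 * x) :: (A ++ [1])) = fac x (A ++ [1]) * Z (A ++ [1]) := by
      have := Z_rec [] (A ++ [1]) x (by
        simp only [List.length_nil, List.length_append, List.length_cons, zero_add]
        exact hA.add_odd (by decide))
      simpa using this
    have hz2 : Z (x :: (q^2 * x) :: (A ++ 1 :: 1 :: B)) =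
        fac x (A ++ 1 :: 1 :: B) * Z (A ++ 1 :: 1 :: B) := by
      have := Z_rec [] (A ++ 1 :: 1 :: B) x (by
        simp only [List.length_nil, List.length_append, List.length_cons, zero_add]
        exact hA.add_odd hB.add_one.add_one)
      simpa using this
    have hpw := pw_aux x A.prod hx hP A.length
    have hfi := fac_inv x hx A hA0
    unfold RH3
    simp only [List.cons_append, List.length_cons, List.prod_cons]
    rw [hz1, hz2]
    have hc : x^(2 * A.length) * A.prod^2 ≠ 0 :=
      mul_ne_zero (pow_ne_zero _ hx) (pow_ne_zero _ hP)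
    have e1 : fac x (A ++ [1]) * fac x (A ++ 1 :: 1 :: B) * fac x [0] =
        fac x (A ++ 1 :: 1 :: 1 :: (B ++ [0])) * fac x A := by
      simp only [fac_append, fac_cons, fac_nil]
      ring
    rw [fac_append (q^2 * x)⁻¹]
    apply mul_right_cancel₀ hc
    apply mul_right_cancel₀ (hf0 x hx)
    have h33 : q^(A.length + 1 + 1 + B.length + 2) = q^(A.length + B.length + 2) * q^2 := by ring
    calc _ = 9 * q^(A.length + 1 + 1 + B.length + 2) *
          ((x * (q^2 * x * A.prod))^(2 - ((A.length + 2 : ℕ) : ℤ)) *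
          (x^(2 * A.length) * A.prod^2)) * B.prod^(2 - (B.length : ℤ)) *
          (fac x (A ++ [1]) * fac x (A ++ 1 :: 1 :: B) * fac x [0]) *
          (Z (A ++ [1]) * Z (B ++ [1]) * Z (A ++ 1 :: 1 :: B)) := by
            push_cast
            ring_nf
      _ = 9 * (q^(A.length + B.length + 2) * (fac x [0] * fac (q^2 * x)⁻¹ [0])) *
          (A.prod^(2 - (A.length : ℤ))) * B.prod^(2 - (B.length : ℤ)) *
          (fac x (A ++ 1 :: 1 :: 1 :: (B ++ [0])) * (q^A.length * fac x A)) *
          (Z (A ++ [1]) * Z (B ++ [1]) * Z (A ++ 1 :: 1 :: B)) := by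
            rw [hpw, e1, e0 x hx, h33]; ring
      _ = _ := by rw [← hfi]; ring
  · intro A B x hA hB hx h0
    have hB0 : ∀ z ∈ B, z ≠ 0 := fun z hz => h0 z (by simp [hz])
    have hP := prod_ne B hB0
    have hz1 : Z (x :: (q^2 * x) :: (B ++ [1])) = fac x (B ++ [1]) * Z (B ++ [1]) := by
      have := Z_rec [] (B ++ [1]) x (by
        simp only [List.length_nil, List.length_append, List.length_cons, zero_add]
        exact hB.add_odd (by decide))
      simpa using this
    have hz2 : Z (A ++ 1 :: 1 :: x :: (q^2 * x) :: B) =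
        fac x (A ++ 1 :: 1 :: B) * Z (A ++ 1 :: 1 :: B) := by
      have := Z_rec (A ++ [1, 1]) B x (by
        simp only [List.length_nil, List.length_append, List.length_cons, zero_add]
        rw [add_assoc]
        exact hA.add_odd ((by decide : Even 2).add_odd hB))
      simpa using this
    have hpw := pw_aux x B.prod hx hP B.length
    have hfi := fac_inv x hx B hB0
    unfold RH3
    simp only [List.cons_append, List.length_cons, List.prod_cons]
    rw [hz1, hz2]
    have hc : x^(2 * B.length) * B.prod^2 ≠ 0 :=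
      mul_ne_zero (pow_ne_zero _ hx) (pow_ne_zero _ hP)
    have e1 : fac x (B ++ [1]) * fac x (A ++ 1 :: 1 :: B) * fac x [0] =
        fac x (A ++ 1 :: 1 :: 1 :: (B ++ [0])) * fac x B := by
      simp only [fac_append, fac_cons, fac_nil]
      ring
    rw [fac_append (q^2 * x)⁻¹]
    apply mul_right_cancel₀ hc
    apply mul_right_cancel₀ (hf0 x hx)
    have h33 : q^(A.length + (B.length + 1 + 1) + 2) = q^(A.length + B.length + 2) * q^2 := by ring
    calc _ = 9 * q^(A.length + (B.length + 1 + 1) + 2) * A.prod^(2 - (A.length : ℤ)) *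
          ((x * (q^2 * x * B.prod))^(2 - ((B.length + 2 : ℕ) : ℤ)) *
          (x^(2 * B.length) * B.prod^2)) *
          (fac x (B ++ [1]) * fac x (A ++ 1 :: 1 :: B) * fac x [0]) *
          (Z (A ++ [1]) * Z (B ++ [1]) * Z (A ++ 1 :: 1 :: B)) := by
            push_cast
            ring_nf
      _ = 9 * (q^(A.length + B.length + 2) * (fac x [0] * fac (q^2 * x)⁻¹ [0])) *
          A.prod^(2 - (A.length : ℤ)) *
          (B.prod^(2 - (B.length : ℤ))) *
          (fac x (A ++ 1 :: 1 :: 1 :: (B ++ [0])) * (q^B.length * fac x B)) *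
          (Z (A ++ [1]) * Z (B ++ [1]) * Z (A ++ 1 :: 1 :: B)) := by
            rw [hpw, e1, e0 x hx, h33]; ring
      _ = _ := by rw [← hfi]; ring

end Pool.Agent.Y405.TL
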