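import Pool.Agent.Y996.TL.Stm
import Pool.Agent.H988R2.Perc.T14

/-! Project TL, job R3: the closed formula is polynomial (adapted from `H981R2.TP.R3`). -/

namespace Pool.Agent.Y405.TL

open Pool.Agent.H988R2.Perc hiding X
open Pool.Agent.Y996.TL
open Polynomial

theorem r3 : S_R3 := by
  refine ⟨?_, ?_⟩
  · intro A B hA hB _
    have hN1 : Even (A.length + 2) := by
      obtain ⟨a, ha⟩ := hA
      exact ⟨a + 1, by omega⟩
    have hN2 : Even (A.length + B.length + 3) := by
      obtain ⟨a, ha⟩ := hA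
      obtain ⟨b, hb⟩ := hB
      exact ⟨a + b + 2, by omega⟩
    obtain ⟨P, hd, hP⟩ := (Z_pd (A.length + 2) hN1).univ [] (A ++ [1]) (by simp)
    obtain ⟨Q, hd', hQ⟩ := (Z_pd (A.length + B.length + 3) hN2).univ [] (A ++ 1 :: 1 :: B) (by
      simp; omega)
    refine ⟨C (9 * q^(A.length + 1 + B.length + 2) * A.prod^(2 - ((A.length + 1 : ℕ) : ℤ)) *
      B.prod^(2 - (B.length : ℤ)) * Z (B ++ [1])) * (Polynomial.X * (P * Q)), ?_, ?_, ?_⟩
    · refine (natDegree_C_mul_le _ _).trans (natDegree_mul_le.trans ?_)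
      have h1 := natDegree_mul_le (p := P) (q := Q)
      have h2 : (Polynomial.X : ℂ[X]).natDegree = 1 := natDegree_X
      omega
    · intro t ht
      rw [eval_mul, eval_mul, eval_mul, eval_C, eval_X, ← hP t, ← hQ t]
      simp only [List.nil_append]
      unfold RH3
      simp only [List.length_cons, List.prod_cons, List.cons_append]
      have h1 : t ^ A.length * t ^ (2 - ((A.length + 1 : ℕ) : ℤ)) = t := by
        rw [← zpow_natCast, ← zpow_add₀ ht]
        have : ((A.length : ℕ) : ℤ) + (2 - ((A.length + 1 : ℕ) : ℤ)) = 1 := by omega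
        rw [this, zpow_one]
      rw [mul_zpow]
      calc _ = t * (9 * q^(A.length + 1 + B.length + 2) *
            A.prod^(2 - ((A.length + 1 : ℕ) : ℤ)) *
            B.prod^(2 - (B.length : ℤ)) * Z (B ++ [1]) * (Z (t :: (A ++ [1])) *
              Z (t :: (A ++ 1 :: 1 :: B)))) := by ring
        _ = (t ^ A.length * t ^ (2 - ((A.length + 1 : ℕ) : ℤ))) *
            (9 * q^(A.length + 1 + B.length + 2) *
            A.prod^(2 - ((A.length + 1 : ℕ) : ℤ)) *
            B.prod^(2 - (B.length : ℤ)) * Z (B ++ [1]) * (Z (t :: (A ++ [1])) *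
              Z (t :: (A ++ 1 :: 1 :: B)))) := by rw [h1]
        _ = _ := by ring
    · simp
  · intro A B hA hB _
    have hN1 : Even (B.length + 2) := by
      obtain ⟨a, ha⟩ := hB
      exact ⟨a + 1, by omega⟩
    have hN2 : Even (A.length + B.length + 3) := by
      obtain ⟨a, ha⟩ := hA
      obtain ⟨b, hb⟩ := hB
      exact ⟨a + b + 2, by omega⟩
    obtain ⟨P, hd, hP⟩ := (Z_pd (B.length + 2) hN1).univ B [1] (by simp)
    obtain ⟨Q, hd', hQ⟩ := (Z_pd (A.length + B.length + 3) hN2).univ (A ++ 1 :: 1 :: B) [] (by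
      simp; omega)
    refine ⟨C (9 * q^(A.length + (B.length + 1) + 2) * A.prod^(2 - (A.length : ℤ)) *
      B.prod^(2 - ((B.length + 1 : ℕ) : ℤ)) * Z (A ++ [1])) * (Polynomial.X * (P * Q)),
      ?_, ?_, ?_⟩
    · refine (natDegree_C_mul_le _ _).trans (natDegree_mul_le.trans ?_)
      have h1 := natDegree_mul_le (p := P) (q := Q)
      have h2 : (Polynomial.X : ℂ[X]).natDegree = 1 := natDegree_X
      omega
    · intro t ht
      rw [eval_mul, eval_mul, eval_mul, eval_C, eval_X, ← hP t, ← hQ t]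
      unfold RH3
      simp only [List.length_append, List.length_singleton, List.prod_append, List.prod_singleton]
      have h1 : t ^ B.length * t ^ (2 - ((B.length + 1 : ℕ) : ℤ)) = t := by
        rw [← zpow_natCast, ← zpow_add₀ ht]
        have : ((B.length : ℕ) : ℤ) + (2 - ((B.length + 1 : ℕ) : ℤ)) = 1 := by omega
        rw [this, zpow_one]
      rw [mul_zpow]
      have e1 : B ++ [t] ++ [1] = B ++ t :: [1] := by simp
      have e2 : A ++ 1 :: 1 :: (B ++ [t]) = A ++ 1 :: 1 :: B ++ [t] := by simp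
      rw [e1, e2]
      calc _ = t * (9 * q^(A.length + (B.length + 1) + 2) * A.prod^(2 - (A.length : ℤ)) *
            B.prod^(2 - ((B.length + 1 : ℕ) : ℤ)) * Z (A ++ [1]) * (Z (B ++ t :: [1]) *
              Z (A ++ 1 :: 1 :: B ++ [t]))) := by ring
        _ = (t ^ B.length * t ^ (2 - ((B.length + 1 : ℕ) : ℤ))) *
            (9 * q^(A.length + (B.length + 1) + 2) * A.prod^(2 - (A.length : ℤ)) *
            B.prod^(2 - ((B.length + 1 : ℕ) : ℤ)) * Z (A ++ [1]) * (Z (B ++ t :: [1]) *
              Z (A ++ 1 :: 1 :: B ++ [t]))) := by rw [h1]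
        _ = _ := by ring
    · simp

end Pool.Agent.Y405.TL
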